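import Pool.Agent.W805.LR.Cons

set_option autoImplicit false

namespace Pool.Agent.Results.MP_6c3d62_pr.LongRangeCycles

open Finset Equiv

/-- The sum over all unordered pairs of the rates. -/
noncomputable def totalRate {V : Type} [Fintype V] (J : V → V → ℝ) : ℝ := ∑ x, ∑ y, J x y / 2

/-- The probability that random stirring started at the identity, with an independent Poisson clock
of rate `J x y` for every unordered pair `{x, y}`, is at the permutation `g` at time `t`: there are
`n` rings up to time `t` with probability `exp (-R t) (R t)^n / n!`, `R` the total rate, and each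
ring swaps the ordered pair `(x, y)` with probability `J x y / (2 R)`. -/
noncomputable def stirLaw {V : Type} [Fintype V] [DecidableEq V] (J : V → V → ℝ) (t : ℝ)
    (g : Perm V) : ℝ :=
  ∑' n : ℕ, Real.exp (-(t * totalRate J)) * t ^ n / (n.factorial : ℝ) *
    ∑ w : Fin n → V × V, (∏ i, J (w i).1 (w i).2 / 2) *
      (if (List.ofFn fun i => swap (w i).1 (w i).2).prod = g then 1 else 0)

/-- Length of the cycle of `g` through `v`. -/
noncomputable def cycleLen {V : Type} [Fintype V] (g : Perm V) (v : V) : ℕ :=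
  Nat.card {w : V // g.SameCycle v w}

/-- The expected number of points in cycles of length at least `s` at time `t`. -/
noncomputable def expLong {V : Type} [Fintype V] [DecidableEq V] (J : V → V → ℝ) (t s : ℝ) : ℝ :=
  ∑ g, stirLaw J t g * (Nat.card {v : V // s ≤ cycleLen g v} : ℝ)

/-- Sup-distance in the box `{0, ..., L - 1}^d`. It is at least the distance on the torus. -/
def boxDist {d L : ℕ} (x y : Fin d → ZMod L) : ℕ :=
  univ.sup fun a => (((x a).val : ℤ) - (y a).val).natAbs

/-- Symmetric rates that are at least `lam * distance ^ (-(d + σ))`; otherwise arbitrary. Since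
`boxDist` is at least the distance on the torus, the condition with the latter is stronger. -/
def Rates (d L : ℕ) (σ lam : ℝ) (J : (Fin d → ZMod L) → (Fin d → ZMod L) → ℝ) : Prop :=
  (∀ x y, J x y = J y x) ∧ (∀ x, J x x = 0) ∧
    ∀ x y, x ≠ y → lam * (boxDist x y : ℝ) ^ (-((d : ℝ) + σ)) ≤ J x y

/-- Random stirring on the torus of side `L` in any dimension `d ≥ 1` with any rates that dominate
an arbitrarily small multiple of `distance ^ (-(d + σ))`, `0 < σ < d` (for instance the nearest
neighbour rates plus such a weak tail): for large times all but an arbitrarily small fraction of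
the points lie in cycles of macroscopic length, uniformly in the size and in the rates. -/
theorem result (d : ℕ) (σ lam η : ℝ) (hd : 1 ≤ d) (hσ : 0 < σ) (hσd : σ < d) (hlam : 0 < lam)
    (hη : 0 < η) :
    ∃ t₀ > 0, ∃ ε > 0, ∀ t ≥ t₀, ∃ L₀ : ℕ, ∀ (L : ℕ) [NeZero L], L₀ ≤ L →
      ∀ J : (Fin d → ZMod L) → (Fin d → ZMod L) → ℝ, Rates d L σ lam J →
        (1 - η) * (L : ℝ) ^ d ≤ expLong J t (ε * (L : ℝ) ^ d) := by
  classical
  obtain ⟨t1, ht1, ε, hε, hmain⟩ := Pool.Agent.W805.LR.main2_thm d σ lam 1 η hd hσ hσd hlam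
    one_pos hη
  refine ⟨t1, ht1, ε, hε, fun t ht => ?_⟩
  obtain ⟨L0, hL0⟩ := hmain t ht
  refine ⟨L0, fun L _ hL J hJ => ?_⟩
  have h1 := hL0 L hL J hJ
  simp only [one_pow, mul_one] at h1
  have hlaw : ∀ g, stirLaw J t g = Real.exp (-(t * totalRate J)) *
      Pool.Agent.W805.LR.stirMass J t g := fun g => Pool.Agent.W805.LR.series_eq J t g
  have hsum : ∑ g, Pool.Agent.W805.LR.stirMass J t g = Real.exp (t * totalRate J) :=
    Pool.Agent.W805.LR.sum_mass J t
  have hlen : ∀ (g : Perm (Fin d → ZMod L)) (v : Fin d → ZMod L),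
      Pool.Agent.W805.LR.len g v = (cycleLen g v : ℝ) := by
    intro g v
    unfold Pool.Agent.W805.LR.len cycleLen
    rw [Pool.Agent.W805.LR.cnt_eq, Nat.card_eq_fintype_card, Fintype.card_subtype, Finset.sum_boole]
  have hcnt : ∀ g : Perm (Fin d → ZMod L),
      (Nat.card {v : Fin d → ZMod L // ε * (L : ℝ) ^ d ≤ cycleLen g v} : ℝ) =
      (L : ℝ) ^ d - Pool.Agent.W805.LR.cnt fun v => Pool.Agent.W805.LR.len g v < ε * (L : ℝ) ^ d := by
    intro g
    rw [Nat.card_eq_fintype_card, Fintype.card_subtype, Pool.Agent.W805.LR.cnt_eq,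
      Finset.sum_boole, ← Pool.Agent.W805.LR.card_torus d L, eq_sub_iff_add_eq, ← Nat.cast_add]
    congr 1
    have h2 : (univ.filter fun v => Pool.Agent.W805.LR.len g v < ε * (L : ℝ) ^ d) =
        (univ.filter fun v => ¬ (ε * (L : ℝ) ^ d ≤ cycleLen g v)) := by
      refine Finset.filter_congr fun v _ => ?_
      rw [hlen, not_le]
    rw [← Pool.Agent.W805.LR.card_torus d L] at h2
    rw [h2, Finset.card_filter_add_card_filter_not]
    exact Finset.card_univ
  unfold expLong
  have h3 : ∀ g : Perm (Fin d → ZMod L), stirLaw J t g *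
      (Nat.card {v : Fin d → ZMod L // ε * (L : ℝ) ^ d ≤ cycleLen g v} : ℝ) =
      Real.exp (-(t * totalRate J)) * ((L : ℝ) ^ d * Pool.Agent.W805.LR.stirMass J t g -
        Pool.Agent.W805.LR.stirMass J t g *
          (Pool.Agent.W805.LR.cnt fun v => Pool.Agent.W805.LR.len g v < ε * (L : ℝ) ^ d)) := by
    intro g
    rw [hlaw, hcnt]; ring
  simp only [h3]
  rw [← Finset.mul_sum, Finset.sum_sub_distrib, ← Finset.mul_sum, hsum]
  rw [hsum] at h1
  have h4 : Real.exp (-(t * totalRate J)) * Real.exp (t * totalRate J) = 1 := by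
    rw [← Real.exp_add, neg_add_cancel, Real.exp_zero]
  have h5 := mul_le_mul_of_nonneg_left h1 (Real.exp_pos (-(t * totalRate J))).le
  calc (1 - η) * (L : ℝ) ^ d = (L : ℝ) ^ d * (Real.exp (-(t * totalRate J)) *
        Real.exp (t * totalRate J)) - η * (L : ℝ) ^ d * (Real.exp (-(t * totalRate J)) *
        Real.exp (t * totalRate J)) := by rw [h4]; ring
    _ ≤ _ := by linarith

end Pool.Agent.Results.MP_6c3d62_pr.LongRangeCycles
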