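import Pool.Agent.W805.LR.Cons

set_option autoImplicit false

namespace Pool.Agent.Results.MP_6c3d62_pr.LongRangeManyCycles

open Finset Equiv

/-- The sum over all unordered pairs of the rates. -/
noncomputable def totalRate {V : Type} [Fintype V] (J : V → V → ℝ) : ℝ := ∑ x, ∑ y, J x y / 2

/-- The probability that random stirring started at the identity, with an independent Poisson clock
of rate `J x y` for every unordered pair `{x, y}`, is at the permutation `g` at time `t`: there are
`n` rings up to time `t` with probability `exp (-R t) (R t)^n / n!`, `R` the total rate, and each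
ring swaps the ordered pair `(x, y)` with probability `J x y / (2 R)`. -/
noncomputable def stirLaw {V : Type} [Fintype V] [DecidableEq V] (J : V → V → ℝ) (t : ℝ)
    (g : Perm V) : ℝ :=
  ∑' n : ℕ, Real.exp (-(t * totalRate J)) * t ^ n / (n.factorial : ℝ) *
    ∑ w : Fin n → V × V, (∏ i, J (w i).1 (w i).2 / 2) *
      (if (List.ofFn fun i => swap (w i).1 (w i).2).prod = g then 1 else 0)

/-- Length of the cycle of `g` through `v`. -/
noncomputable def cycleLen {V : Type} [Fintype V] (g : Perm V) (v : V) : ℕ :=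
  Nat.card {w : V // g.SameCycle v w}

/-- There are `k` different cycles of length at least `s`, i.e. the `k`-th longest cycle has length
at least `s`. -/
def HasCycles {V : Type} [Fintype V] (g : Perm V) (k : ℕ) (s : ℝ) : Prop :=
  ∃ f : Fin k → V, (∀ a b, a ≠ b → ¬ g.SameCycle (f a) (f b)) ∧ ∀ a, s ≤ cycleLen g (f a)

/-- The probability that the `k`-th longest cycle has length at least `s` at time `t`. -/
noncomputable def prob {V : Type} [Fintype V] [DecidableEq V] (J : V → V → ℝ) (t : ℝ) (k : ℕ)
    (s : ℝ) : ℝ :=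
  open Classical in ∑ g, stirLaw J t g * (if HasCycles g k s then 1 else 0)

/-- Sup-distance in the box `{0, ..., L - 1}^d`. It is at least the distance on the torus. -/
def boxDist {d L : ℕ} (x y : Fin d → ZMod L) : ℕ :=
  univ.sup fun a => (((x a).val : ℤ) - (y a).val).natAbs

/-- Symmetric rates that are at least `lam * distance ^ (-(d + σ))`; otherwise arbitrary. Since
`boxDist` is at least the distance on the torus, the condition with the latter is stronger. -/
def Rates (d L : ℕ) (σ lam : ℝ) (J : (Fin d → ZMod L) → (Fin d → ZMod L) → ℝ) : Prop :=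
  (∀ x y, J x y = J y x) ∧ (∀ x, J x x = 0) ∧
    ∀ x y, x ≠ y → lam * (boxDist x y : ℝ) ^ (-((d : ℝ) + σ)) ≤ J x y

/-- Random stirring on the torus of side `L` in any dimension `d ≥ 1` with any rates that dominate
an arbitrarily small multiple of `distance ^ (-(d + σ))`, `0 < σ < d` (for instance the nearest
neighbour rates plus such a weak tail). There is one time `t₀` such that at all times `t ≥ t₀` and
for every `k` the `k`-th longest cycle is macroscopic with probability at least `c > 0`,
uniformly in the size and in the rates. -/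
theorem result (d : ℕ) (σ lam : ℝ) (hd : 1 ≤ d) (hσ : 0 < σ) (hσd : σ < d) (hlam : 0 < lam) :
    ∃ t₀ > 0, ∀ k : ℕ, 1 ≤ k → ∃ ε > 0, ∃ c > 0, ∀ t ≥ t₀, ∃ L₀ : ℕ,
      ∀ (L : ℕ) [NeZero L], L₀ ≤ L →
      ∀ J : (Fin d → ZMod L) → (Fin d → ZMod L) → ℝ, Rates d L σ lam J →
        c ≤ prob J t k (ε * (L : ℝ) ^ d) := by
  classical
  obtain ⟨t1, ht1, hmain⟩ := Pool.Agent.W805.LR.many_main d σ lam 1 hd hσ hσd hlam one_pos
  refine ⟨t1, ht1, fun k hk => ?_⟩
  obtain ⟨m, rfl⟩ : ∃ m, k = m + 1 := ⟨k - 1, by omega⟩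
  obtain ⟨ε, hε, c, hc, h⟩ := hmain m
  refine ⟨ε, hε, c, hc, fun t ht => ?_⟩
  obtain ⟨L0, hL0⟩ := h t ht
  refine ⟨L0, fun L _ hL J hJ => ?_⟩
  have h1 := hL0 L hL J hJ
  simp only [one_pow, mul_one] at h1
  have hlaw : ∀ g, stirLaw J t g = Real.exp (-(t * totalRate J)) *
      Pool.Agent.W805.LR.stirMass J t g := fun g => Pool.Agent.W805.LR.series_eq J t g
  have hsum : ∑ g, Pool.Agent.W805.LR.stirMass J t g = Real.exp (t * totalRate J) :=
    Pool.Agent.W805.LR.sum_mass J t
  have hlen : ∀ (g : Perm (Fin d → ZMod L)) (v : Fin d → ZMod L),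
      Pool.Agent.W805.LR.len g v = (cycleLen g v : ℝ) := by
    intro g v
    unfold Pool.Agent.W805.LR.len cycleLen
    rw [Pool.Agent.W805.LR.cnt_eq, Nat.card_eq_fintype_card, Fintype.card_subtype, Finset.sum_boole]
  have hiff : ∀ g : Perm (Fin d → ZMod L),
      Pool.Agent.W805.LR.manyCyc g (m + 1) (ε * (L : ℝ) ^ d) ↔
        HasCycles g (m + 1) (ε * (L : ℝ) ^ d) := by
    intro g
    unfold Pool.Agent.W805.LR.manyCyc HasCycles
    simp only [hlen]
  rw [hsum] at h1
  unfold prob
  have h3 : ∀ g : Perm (Fin d → ZMod L), stirLaw J t g *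
      (if HasCycles g (m + 1) (ε * (L : ℝ) ^ d) then (1 : ℝ) else 0) =
      Real.exp (-(t * totalRate J)) * (Pool.Agent.W805.LR.stirMass J t g *
        (if Pool.Agent.W805.LR.manyCyc g (m + 1) (ε * (L : ℝ) ^ d) then 1 else 0)) := by
    intro g
    rw [hlaw, mul_assoc]
    simp only [hiff]
  simp only [h3]
  rw [← Finset.mul_sum]
  have h4 : Real.exp (-(t * totalRate J)) * Real.exp (t * totalRate J) = 1 := by
    rw [← Real.exp_add, neg_add_cancel, Real.exp_zero]
  have h5 := mul_le_mul_of_nonneg_left h1 (Real.exp_pos (-(t * totalRate J))).le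
  calc c = c * (Real.exp (-(t * totalRate J)) * Real.exp (t * totalRate J)) := by rw [h4, mul_one]
    _ = Real.exp (-(t * totalRate J)) * (c * Real.exp (t * totalRate J)) := by ring
    _ ≤ _ := h5

end Pool.Agent.Results.MP_6c3d62_pr.LongRangeManyCycles
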