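import Pool.Agent.W805.LR.PDOut

set_option autoImplicit false

namespace Pool.Agent.Results.MP_6c3d62_pr.LongRangeTransition

open Finset Equiv Filter Topology

/-- A symmetric summable jump kernel on `ℤ^d` with `φ z ≥ lam * ‖z‖ ^ (-(d + σ))` for all `z ≠ 0`
(sup-norm); otherwise arbitrary, for instance the nearest-neighbour kernel plus such a tail. -/
structure Kernel (d : ℕ) (σ lam : ℝ) (φ : (Fin d → ℤ) → ℝ) : Prop where
  nonneg : ∀ z, 0 ≤ φ z
  even : ∀ z, φ (-z) = φ z
  zero : φ 0 = 0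
  summable : Summable φ
  lower : ∀ z : Fin d → ℤ, z ≠ 0 →
    lam * ((univ.sup fun a => (z a).natAbs : ℕ) : ℝ) ^ (-((d : ℝ) + σ)) ≤ φ z

/-- The kernel wrapped around the torus: the rate of the pair `{x, y}` is the sum of `φ z` over all
`z` with `x + z = y` in the torus. -/
noncomputable def torusRate {d L : ℕ} (φ : (Fin d → ℤ) → ℝ) (x y : Fin d → ZMod L) : ℝ :=
  open Classical in if x = y then 0 else
    ∑' z : Fin d → ℤ, if ∀ a, x a + ((z a : ℤ) : ZMod L) = y a then φ z else 0

/-- The sum over all unordered pairs of the rates. -/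
noncomputable def totalRate {V : Type} [Fintype V] (J : V → V → ℝ) : ℝ := ∑ x, ∑ y, J x y / 2

/-- The probability that random stirring started at the identity, with an independent Poisson clock
of rate `J x y` for every unordered pair `{x, y}`, is at the permutation `g` at time `t`: there are
`n` rings up to time `t` with probability `exp (-R t) (R t)^n / n!`, `R` the total rate, and each
ring swaps the ordered pair `(x, y)` with probability `J x y / (2 R)`. -/
noncomputable def stirLaw {V : Type} [Fintype V] [DecidableEq V] (J : V → V → ℝ) (t : ℝ)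
    (g : Perm V) : ℝ :=
  ∑' n : ℕ, Real.exp (-(t * totalRate J)) * t ^ n / (n.factorial : ℝ) *
    ∑ w : Fin n → V × V, (∏ i, J (w i).1 (w i).2 / 2) *
      (if (List.ofFn fun i => swap (w i).1 (w i).2).prod = g then 1 else 0)

/-- Expectation of `F` at time `t` for stirring on the torus of side `N + 1`, started at the
identity. -/
noncomputable def expect (d : ℕ) (φ : (Fin d → ℤ) → ℝ) (t : ℝ) (N : ℕ)
    (F : Perm (Fin d → ZMod (N + 1)) → ℝ) : ℝ :=
  ∑ g, stirLaw (fun x y : Fin d → ZMod (N + 1) => torusRate φ x y) t g * F g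

/-- The `i`-th longest cycle (`i = 0, 1, ...`) divided by the number of points; `0` if there are at
most `i` cycles. -/
noncomputable def cycleFrac {V : Type} [Fintype V] [DecidableEq V] (g : Perm V) (i : ℕ) : ℝ :=
  sSup {x : ℝ | i + 1 ≤ Multiset.card
    (g.partition.parts.filter fun c : ℕ => x ≤ (c : ℝ) / Fintype.card V)}

/-- Random stirring on the torus in any dimension `d ≥ 1` with long-range rates: the asymptotic
fraction `m(t)` of vertices in macroscopic cycles exists for all times, is continuous, vanishes up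
to a critical time `βc` in `(0, ∞)` and is positive at times arbitrarily close above `βc`, and tends
to `1`. For every time with `m(t) = 0` there are no macroscopic cycles, and for every time with
`m(t) > 0` the `i`-th longest cycle is macroscopic with positive probability for every `i`. -/
theorem result (d : ℕ) (σ lam : ℝ) (φ : (Fin d → ℤ) → ℝ) (hd : 1 ≤ d) (hσ : 0 < σ) (hσd : σ < d)
    (hlam : 0 < lam) (hφ : Kernel d σ lam φ) :
    ∃ (m : ℝ → ℝ) (βc : ℝ), 0 < βc ∧ (∀ t, 0 ≤ t → t ≤ βc → m t = 0) ∧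
      (∀ β, βc < β → ∃ t, βc < t ∧ t < β ∧ 0 < m t) ∧
      ContinuousOn m (Set.Ici 0) ∧ (∀ t, 0 ≤ t → 0 ≤ m t ∧ m t ≤ 1) ∧ Tendsto m atTop (𝓝 1) ∧
      ∀ t, 0 ≤ t →
        (∃ Lk : ℕ → ℝ, (∀ k, Tendsto (fun N : ℕ => ∑ i ∈ range k,
          expect d φ t N (fun g => cycleFrac g i)) atTop (𝓝 (Lk k))) ∧
            Tendsto Lk atTop (𝓝 (m t))) ∧
        (m t = 0 → ∀ (i : ℕ) (ε : ℝ), 0 < ε →
          Tendsto (fun N : ℕ => expect d φ t N (fun g => if ε ≤ cycleFrac g i then 1 else 0))
            atTop (𝓝 0)) ∧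
        (0 < m t → ∀ i : ℕ, ∃ ε₀ : ℝ, 0 < ε₀ ∧ ∀ ε : ℝ, 0 < ε → ε < ε₀ →
          0 < liminf (fun N : ℕ => expect d φ t N (fun g => if ε ≤ cycleFrac g i then 1 else 0))
            atTop) := by
  have hker : Pool.Agent.W805.PD.IsKer d φ := ⟨hφ.nonneg, hφ.even, hφ.zero, hφ.summable⟩
  obtain ⟨m, h1, h2, h3, h4, h5⟩ :=
    Pool.Agent.W805.PD.full_all d σ lam φ hd hσ hσd hlam hker hφ.lower
  obtain ⟨βc, hb1, hb2, hb3⟩ := Pool.Agent.W805.PD.crit m (∑' z, φ z) (tsum_nonneg hφ.nonneg)
    h1 h2 h3 h4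
  have hE : ∀ (t : ℝ) (N : ℕ) (F : Perm (Fin d → ZMod (N + 1)) → ℝ), expect d φ t N F =
      Pool.Agent.W805.PD.EE
        (fun x y : Fin d → ZMod (N + 1) => Pool.Agent.W805.PD.wrap φ x y) t F := fun t N F =>
    Pool.Agent.W805.PD.EE_series _ t F
  refine ⟨m, βc, hb1, hb2, hb3, h1, h2, h4, fun t ht => ⟨?_, fun hm i ε hε => ?_, fun hm i => ?_⟩⟩
  · obtain ⟨Lk, h6, h7⟩ := (h5 t ht).2
    refine ⟨Lk, fun k => ?_, h7⟩
    simp only [hE]
    exact h6 k
  · simp only [hE]
    have h6 := (h5 t ht).1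
    rw [hm] at h6
    exact Pool.Agent.W805.PD.no_long d φ t ht hker h6 i ε hε
  · simp only [hE]
    exact Pool.Agent.W805.PD.many_long d φ t (m t) ht hm hker (h5 t ht).1 i

end Pool.Agent.Results.MP_6c3d62_pr.LongRangeTransition
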