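import Pool.Agent.W805.LR.PDOut

set_option autoImplicit false

namespace Pool.Agent.Results.MP_6c3d62_pr.NoIntermediateCycles

open Finset Equiv

/-- The sum over all unordered pairs of the rates. -/
noncomputable def totalRate {V : Type} [Fintype V] (J : V → V → ℝ) : ℝ := ∑ x, ∑ y, J x y / 2

/-- The probability that random stirring started at the identity, with an independent Poisson clock
of rate `J x y` for every unordered pair `{x, y}`, is at the permutation `g` at time `t`: there are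
`n` rings up to time `t` with probability `exp (-R t) (R t)^n / n!`, `R` the total rate, and each
ring swaps the ordered pair `(x, y)` with probability `J x y / (2 R)`. -/
noncomputable def stirLaw {V : Type} [Fintype V] [DecidableEq V] (J : V → V → ℝ) (t : ℝ)
    (g : Perm V) : ℝ :=
  ∑' n : ℕ, Real.exp (-(t * totalRate J)) * t ^ n / (n.factorial : ℝ) *
    ∑ w : Fin n → V × V, (∏ i, J (w i).1 (w i).2 / 2) *
      (if (List.ofFn fun i => swap (w i).1 (w i).2).prod = g then 1 else 0)

/-- Length of the cycle of `g` through `v`. -/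
noncomputable def cycleLen {V : Type} [Fintype V] (g : Perm V) (v : V) : ℕ :=
  Nat.card {w : V // g.SameCycle v w}

/-- The expected number of points in cycles of length at least `a` and less than `b` at time `t`. -/
noncomputable def expBetween {V : Type} [Fintype V] [DecidableEq V] (J : V → V → ℝ) (t a b : ℝ) :
    ℝ :=
  ∑ g, stirLaw J t g * (Nat.card {v : V // a ≤ cycleLen g v ∧ (cycleLen g v : ℝ) < b} : ℝ)

/-- Sup-distance in the box `{0, ..., L - 1}^d`. It is at least the distance on the torus. -/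
def boxDist {d L : ℕ} (x y : Fin d → ZMod L) : ℕ :=
  univ.sup fun a => (((x a).val : ℤ) - (y a).val).natAbs

/-- Symmetric rates that are at least `lam * distance ^ (-(d + σ))`; otherwise arbitrary. Since
`boxDist` is at least the distance on the torus, the condition with the latter is stronger. -/
def Rates (d L : ℕ) (σ lam : ℝ) (J : (Fin d → ZMod L) → (Fin d → ZMod L) → ℝ) : Prop :=
  (∀ x y, J x y = J y x) ∧ (∀ x, J x x = 0) ∧
    ∀ x y, x ≠ y → lam * (boxDist x y : ℝ) ^ (-((d : ℝ) + σ)) ≤ J x y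

/-- Random stirring on the torus of side `L` in any dimension `d ≥ 1` with any rates that dominate
an arbitrarily small multiple of `distance ^ (-(d + σ))`, `0 < σ < d`: at EVERY time, uniformly for
`t ≥ t₀`, in the size and in the rates, all but an arbitrarily small fraction of the points lie in
cycles of length less than `ℓ` or of macroscopic length at least `ε * L ^ d`. -/
theorem result (d : ℕ) (σ lam t₀ η : ℝ) (hd : 1 ≤ d) (hσ : 0 < σ) (hσd : σ < d) (hlam : 0 < lam)
    (ht₀ : 0 < t₀) (hη : 0 < η) :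
    ∃ ℓ : ℕ, ∃ ε > 0, ∃ L₀ : ℕ, ∀ t ≥ t₀, ∀ (L : ℕ) [NeZero L], L₀ ≤ L →
      ∀ J : (Fin d → ZMod L) → (Fin d → ZMod L) → ℝ, Rates d L σ lam J →
        expBetween J t ℓ (ε * (L : ℝ) ^ d) ≤ η * (L : ℝ) ^ d := by
  classical
  obtain ⟨ℓ, K, L0, hK, h⟩ := Pool.Agent.W805.PD.nomesoE Pool.Agent.W805.PD.nomeso_thm d σ lam t₀ η
    hd hσ hσd hlam ht₀ hη
  have hK' : (0 : ℝ) < K := by exact_mod_cast hK
  refine ⟨ℓ, 1 / K, by positivity, L0, fun t ht L _ hL J hJ => ?_⟩
  have h1 := h t ht L hL J hJ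
  have hL0 : (0 : ℝ) < L := by exact_mod_cast Nat.pos_of_ne_zero (NeZero.ne L)
  have hn0 : (0 : ℝ) < (L : ℝ) ^ d := by positivity
  have hE : expBetween J t ℓ (1 / K * (L : ℝ) ^ d) = Pool.Agent.W805.PD.EE J t (fun g =>
      (Nat.card {v : Fin d → ZMod L // (ℓ : ℝ) ≤ cycleLen g v ∧
        (cycleLen g v : ℝ) < 1 / K * (L : ℝ) ^ d} : ℝ)) :=
    Pool.Agent.W805.PD.EE_series _ t _
  have hlen : ∀ (g : Perm (Fin d → ZMod L)) (v : Fin d → ZMod L),
      (cycleLen g v : ℝ) = Pool.Agent.W805.LR.len g v := by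
    intro g v
    unfold cycleLen Pool.Agent.W805.LR.len
    rw [Pool.Agent.W805.LR.cnt_eq, Nat.card_eq_fintype_card, Fintype.card_subtype,
      Finset.sum_boole]
  have hcnt : ∀ g : Perm (Fin d → ZMod L),
      (Nat.card {v : Fin d → ZMod L // (ℓ : ℝ) ≤ cycleLen g v ∧
        (cycleLen g v : ℝ) < 1 / K * (L : ℝ) ^ d} : ℝ) =
      Pool.Agent.W805.LR.cnt (fun v => (ℓ : ℝ) ≤ Pool.Agent.W805.LR.len g v ∧
        K * Pool.Agent.W805.LR.len g v < (L : ℝ) ^ d) := by
    intro g
    rw [Pool.Agent.W805.LR.cnt_eq, Nat.card_eq_fintype_card, Fintype.card_subtype,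
      Finset.sum_boole]
    congr 1
    congr 1
    refine Finset.filter_congr fun v _ => ?_
    rw [hlen]
    have : (Pool.Agent.W805.LR.len g v < 1 / K * (L : ℝ) ^ d) ↔
        (K * Pool.Agent.W805.LR.len g v < (L : ℝ) ^ d) := by
      rw [one_div, ← div_eq_inv_mul, lt_div_iff₀ hK', mul_comm]
    rw [this]
  rw [hE]
  simp only [hcnt]
  have e1 : Pool.Agent.W805.PD.EE J t (fun g =>
      (Pool.Agent.W805.LR.cnt fun v => (ℓ : ℝ) ≤ Pool.Agent.W805.LR.len g v ∧
        K * Pool.Agent.W805.LR.len g v < (L : ℝ) ^ d) / (L : ℝ) ^ d) =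
      (1 / (L : ℝ) ^ d) * Pool.Agent.W805.PD.EE J t (fun g =>
      (Pool.Agent.W805.LR.cnt fun v => (ℓ : ℝ) ≤ Pool.Agent.W805.LR.len g v ∧
        K * Pool.Agent.W805.LR.len g v < (L : ℝ) ^ d)) := by
    rw [← Pool.Agent.W805.PD.EE_mul]
    congr 1
    funext g
    ring
  rw [e1, one_div, ← div_eq_inv_mul, div_le_iff₀ hn0] at h1
  exact h1

end Pool.Agent.Results.MP_6c3d62_pr.NoIntermediateCycles
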